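import Pool.Agent.J4H92.TP.Stm

/-! # Project TP (helper92), piece GD (helper89, second prover): obstructed motions -/

set_option autoImplicit false

namespace Pool.Agent.J4H89.TP

open SimpleGraph Module Matrix Pool.Agent.H283R2.DR Pool.Agent.H283R2.DR.TA Pool.Agent.J4H92.CP
  Pool.Agent.J4H92.NC Pool.Agent.J4H92.TP

section gd

variable {W : Type} [Fintype W] (H : SimpleGraph W)

open Classical in
/-- symmetric weights on the edges -/
noncomputable def sw (w : W → W → ℝ) (j l : W) : ℝ := if H.Adj j l then w j l + w l j else 0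

/-- the resultant of the weights -/
noncomputable def Psi (q : W → Fin 3 → ℝ) : (W → W → ℝ) →ₗ[ℝ] (W → Fin 3 → ℝ) where
  toFun w j := ∑ l, sw H w j l • (q j - q l)
  map_add' w w' := by
    funext j
    rw [Pi.add_apply, ← Finset.sum_add_distrib]
    refine Finset.sum_congr rfl fun l _ => ?_
    rw [← add_smul]
    congr 1
    unfold sw
    split_ifs
    · simp only [Pi.add_apply]; ring
    · simp
  map_smul' c w := by
    funext j
    rw [Pi.smul_apply, Finset.smul_sum]
    refine Finset.sum_congr rfl fun l _ => ?_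
    rw [smul_smul]
    congr 1
    unfold sw
    split_ifs
    · simp only [Pi.smul_apply, smul_eq_mul, RingHom.id_apply]; ring
    · simp

theorem psi_apply (q : W → Fin 3 → ℝ) (w : W → W → ℝ) (j : W) :
    Psi H q w j = ∑ l, sw H w j l • (q j - q l) := rfl

open Classical in
theorem key (q y : W → Fin 3 → ℝ) (w : W → W → ℝ) :
    ∑ j, Psi H q w j ⬝ᵥ y j =
      ∑ j, ∑ l, if H.Adj j l then w j l * ((q j - q l) ⬝ᵥ (y j - y l)) else 0 := by
  have h1 : ∀ j, Psi H q w j ⬝ᵥ y j =
      (∑ l, if H.Adj j l then w j l * ((q j - q l) ⬝ᵥ y j) else 0) +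
      ∑ l, if H.Adj j l then w l j * ((q j - q l) ⬝ᵥ y j) else 0 := by
    intro j
    rw [psi_apply, sum_dotProduct, ← Finset.sum_add_distrib]
    refine Finset.sum_congr rfl fun l _ => ?_
    rw [smul_dotProduct, smul_eq_mul, sw]
    split_ifs
    · ring
    · simp
  have h2 : ∑ j, ∑ l, (if H.Adj j l then w l j * ((q j - q l) ⬝ᵥ y j) else 0) =
      ∑ j, ∑ l, (if H.Adj j l then - (w j l * ((q j - q l) ⬝ᵥ y l)) else 0) := by
    rw [Finset.sum_comm]
    refine Finset.sum_congr rfl fun j _ => Finset.sum_congr rfl fun l _ => ?_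
    by_cases h : H.Adj l j
    · rw [if_pos h, if_pos h.symm]
      rw [← neg_sub (q j) (q l), neg_dotProduct]
      ring
    · rw [if_neg h, if_neg (fun h' => h h'.symm)]
  rw [Finset.sum_congr rfl fun j _ => h1 j, Finset.sum_add_distrib, h2, ← Finset.sum_add_distrib]
  refine Finset.sum_congr rfl fun j _ => ?_
  rw [← Finset.sum_add_distrib]
  refine Finset.sum_congr rfl fun l _ => ?_
  split_ifs
  · rw [dotProduct_sub]; ring
  · simp

/-- linear functionals on the placements -/
theorem rep (φ : (W → Fin 3 → ℝ) →ₗ[ℝ] ℝ) : ∃ z : W → Fin 3 → ℝ, ∀ G, φ G = ∑ j, G j ⬝ᵥ z j := by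
  classical
  refine ⟨fun j k => φ (Pi.single j (fun l => if k = l then 1 else 0)), fun G => ?_⟩
  have h1 : G = ∑ j, Pi.single j (G j) := (Finset.univ_sum_single G).symm
  conv_lhs => rw [h1]
  rw [map_sum]
  refine Finset.sum_congr rfl fun j _ => ?_
  have h2 := LinearMap.pi_apply_eq_sum_univ (φ.comp (LinearMap.single ℝ (fun _ : W => Fin 3 → ℝ) j)) (G j)
  rw [LinearMap.comp_apply, LinearMap.single_apply] at h2
  rw [h2]
  simp only [dotProduct, LinearMap.comp_apply, LinearMap.single_apply, smul_eq_mul]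

theorem mem_range {p F : W → Fin 3 → ℝ} (h : ∀ z ∈ Zs H p Set.univ, ∑ j, F j ⬝ᵥ z j = 0) :
    ∃ w, Psi H p w = F := by
  classical
  by_contra hcon
  have h1 : F ∉ LinearMap.range (Psi H p) := fun h => hcon h
  obtain ⟨φ, hφ0, hφ⟩ := Submodule.exists_dual_map_eq_bot_of_notMem h1 inferInstance
  have hφ1 : ∀ w, φ (Psi H p w) = 0 := by
    intro w
    have : φ (Psi H p w) ∈ (LinearMap.range (Psi H p)).map φ := ⟨_, ⟨w, rfl⟩, rfl⟩
    rw [hφ] at this
    simpa using this
  obtain ⟨z, hz⟩ := rep φ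
  apply hφ0
  rw [hz]
  apply h
  refine ⟨fun u v huv => ?_, fun a ha => absurd (Set.mem_univ a) ha⟩
  have h2 := hφ1 (fun a b => if a = u ∧ b = v then 1 else 0)
  rw [hz, key] at h2
  rw [← h2]
  rw [Finset.sum_eq_single u, Finset.sum_eq_single v]
  · simp [huv]
  · intro b _ hb
    simp [hb]
  · intro h; exact absurd (Finset.mem_univ _) h
  · intro b _ hb
    refine Finset.sum_eq_zero fun l _ => ?_
    simp [hb]
  · intro h; exact absurd (Finset.mem_univ _) h

end gd

/-- **GD** -/
theorem t_GD : S_GD := by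
  intro W _ H p e x hE hx hijk
  classical
  obtain ⟨i, j, k, hij, hik, hne⟩ := hijk
  -- the equilibrium coefficients
  let T : Zs H p Set.univ →ₗ[ℝ] (W → ℝ) :=
    { toFun := fun z a => e a ⬝ᵥ z.1 a
      map_add' := fun z z' => by
        funext a
        simp [dotProduct_add]
      map_smul' := fun c z => by
        funext a
        simp [dotProduct_smul] }
  let N : Submodule ℝ (Module.Dual ℝ (W → ℝ)) := (LinearMap.range T).dualAnnihilator
  let δ : W → W → ℝ := fun a l => if a = l then 1 else 0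
  have hN : ∀ a, ∃ φ : N, φ.1 (δ a) ≠ 0 := by
    intro a
    have h1 : δ a ∉ LinearMap.range T := by
      rintro ⟨z, hz⟩
      have h2 : z.1 = 0 := by
        refine hE a z.1 z.2 fun b hb => ?_
        have := congrFun hz b
        simp only [δ, if_neg hb.symm] at this
        exact this
      have h3 := congrFun hz a
      have h4 : T z a = e a ⬝ᵥ z.1 a := rfl
      rw [h4, h2] at h3
      simp [δ] at h3
    obtain ⟨φ, hφ0, hφ⟩ := Submodule.exists_dual_map_eq_bot_of_notMem h1 inferInstance
    refine ⟨⟨φ, ?_⟩, hφ0⟩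
    rw [Submodule.mem_dualAnnihilator]
    intro w hw
    have : φ w ∈ (LinearMap.range T).map φ := ⟨w, hw, rfl⟩
    rw [hφ] at this
    simpa using this
  let ev : W → (N →ₗ[ℝ] ℝ) := fun a =>
    { toFun := fun φ => φ.1 (δ a)
      map_add' := fun φ ψ => by simp
      map_smul' := fun c φ => by simp }
  obtain ⟨φ, hφ⟩ := good_family (E := N) (ι := W) (fun a φ => ev a φ ≠ 0)
    (fun a => good_ne (E := N) (F := ℝ) (ev a)) hN
  set f : W → ℝ := fun a => φ.1 (δ a) with hf
  have hf0 : ∀ a, f a ≠ 0 := hφ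
  have hfz : ∀ z ∈ Zs H p Set.univ, ∑ a, (f a • e a) ⬝ᵥ z a = 0 := by
    intro z hz
    have h1 : φ.1 (T ⟨z, hz⟩) = 0 := by
      have := φ.2
      rw [Submodule.mem_dualAnnihilator] at this
      exact this _ ⟨_, rfl⟩
    rw [LinearMap.pi_apply_eq_sum_univ] at h1
    rw [← h1]
    refine Finset.sum_congr rfl fun a _ => ?_
    rw [smul_dotProduct, smul_eq_mul, smul_eq_mul, mul_comm]
    rfl
  obtain ⟨w1, hw1⟩ := mem_range H (p := p) (F := fun a => f a • e a) hfz
  -- the line
  let w0 : W → W → ℝ := fun a b => if a = i ∧ (b = j ∨ b = k) then 1 else 0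
  have hjk : j ≠ k := by
    rintro rfl
    apply hne
    simp
  have hsw : ∀ q : W → Fin 3 → ℝ, Psi H q w0 i = (q i - q j) + (q i - q k) := by
    intro q
    rw [psi_apply]
    have h1 : ∀ l, sw H w0 i l • (q i - q l) = (if l = j then (q i - q l) else 0) +
        (if l = k then (q i - q l) else 0) := by
      intro l
      unfold sw
      by_cases hl : H.Adj i l
      · have hli : l ≠ i := hl.ne'
        rw [if_pos hl]
        simp only [w0]
        by_cases h1 : l = j
        · subst h1
          simp [hjk, hli]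
        · by_cases h2 : l = k
          · subst h2
            simp [h1, hli]
          · simp [h1, h2, hli]
      · have h1 : l ≠ j := fun h => hl (h ▸ hij)
        have h2 : l ≠ k := fun h => hl (h ▸ hik)
        simp [hl, h1, h2]
    rw [Finset.sum_congr rfl fun l _ => h1 l, Finset.sum_add_distrib]
    simp
  have hA1 : (Psi H p w0 i) ⬝ᵥ (Psi H x w0 i) ≠ 0 := by
    rw [hsw, hsw]
    intro h
    apply hne
    have e1 : (p i - p j) ⬝ᵥ (x i - x j) = 0 := hx.1 i j hij
    have e2 : (p i - p k) ⬝ᵥ (x i - x k) = 0 := hx.1 i k hik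
    rw [add_dotProduct, dotProduct_add, dotProduct_add, e1, e2] at h
    have e3 : (p j - p k) ⬝ᵥ (x j - x k) =
        ((p i - p k) - (p i - p j)) ⬝ᵥ ((x i - x k) - (x i - x j)) := by
      congr 1 <;> abel
    have e4 : ∀ a b c d : Fin 3 → ℝ, (b - a) ⬝ᵥ (d - c) =
        b ⬝ᵥ d - b ⬝ᵥ c - (a ⬝ᵥ d - a ⬝ᵥ c) := fun a b c d => by
      rw [sub_dotProduct, dotProduct_sub, dotProduct_sub]
    rw [e3, e4, e1, e2]
    linarith
  -- condition (a)
  let L : (W → Fin 3 → ℝ) →ₗ[ℝ] Zs H p Set.univ →ₗ[ℝ] (W → ℝ) := LinearMap.mk₂ ℝ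
    (fun F z a => F a ⬝ᵥ z.1 a)
    (fun F F' z => by funext a; simp [add_dotProduct])
    (fun c F z => by funext a; simp [smul_dotProduct])
    (fun F z z' => by funext a; simp [dotProduct_add])
    (fun c F z => by funext a; simp [dotProduct_smul])
  have hL : ∀ F, finrank ℝ (LinearMap.ker (L F)) ≤ 0 ↔ Gd (Zs H p Set.univ) F := by
    intro F
    rw [Nat.le_zero, Submodule.finrank_eq_zero, LinearMap.ker_eq_bot']
    constructor
    · intro h z hz hF
      have := h ⟨z, hz⟩ (funext hF)
      exact congrArg Subtype.val this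
    · intro h z hz
      exact Subtype.ext (h z.1 z.2 fun a => congrFun hz a)
  have hg := good_ker L 0 (Psi H p w1) (Psi H p w1 + Psi H p w0) (by
    show finrank ℝ (LinearMap.ker (L (Psi H p w1))) ≤ 0
    rw [hL, hw1]
    intro z hz h0
    refine hE i z hz fun a _ => ?_
    have := h0 a
    rw [smul_dotProduct, smul_eq_mul] at this
    exact (mul_eq_zero.1 this).resolve_left (hf0 a))
  -- condition (b)
  set P : Polynomial ℝ := Polynomial.C (Psi H p w1 i ⬝ᵥ Psi H x w1 i) +
    Polynomial.C (Psi H p w1 i ⬝ᵥ Psi H x w0 i + Psi H p w0 i ⬝ᵥ Psi H x w1 i) * Polynomial.X +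
    Polynomial.C (Psi H p w0 i ⬝ᵥ Psi H x w0 i) * Polynomial.X ^ 2 with hP
  have hP0 : P ≠ 0 := by
    intro h
    have h2 := congrArg (fun P => Polynomial.coeff P 2) h
    simp [hP] at h2
    exact hA1 h2
  obtain ⟨s, hs⟩ := (hg.union (Polynomial.finite_setOfPred_isRoot hP0)).infinite_compl.nonempty
  rw [Set.mem_compl_iff, Set.mem_union, not_or, Set.mem_ofPred_eq, not_not,
    Set.mem_ofPred_eq] at hs
  obtain ⟨hs1, hs2⟩ := hs
  set w := w1 + s • w0 with hw
  have hps : ∀ q, Psi H q w = Psi H q w1 + s • Psi H q w0 := by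
    intro q
    rw [hw, map_add, map_smul]
  have hG : Gd (Zs H p Set.univ) (Psi H p w) := by
    rw [← hL, hps]
    have : Psi H p w1 + s • (Psi H p w1 + Psi H p w0 - Psi H p w1) =
        Psi H p w1 + s • Psi H p w0 := by
      rw [add_sub_cancel_left]
    rw [this] at hs1
    exact hs1
  have hX : Psi H p w i ⬝ᵥ Psi H x w i ≠ 0 := by
    intro h
    apply hs2
    rw [hps, hps] at h
    simp only [Pi.add_apply, Pi.smul_apply, add_dotProduct, dotProduct_add, smul_dotProduct,
      dotProduct_smul, smul_eq_mul] at h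
    simp only [hP, Polynomial.IsRoot, Polynomial.eval_add, Polynomial.eval_mul, Polynomial.eval_C,
      Polynomial.eval_X, Polynomial.eval_pow]
    linarith
  -- the obstruction
  have hob : ∀ e' y : W → Fin 3 → ℝ, (∀ a, Psi H p w a ⬝ᵥ y a = 0) →
      (∀ u v, H.Adj u v → (p u - p v) ⬝ᵥ (y u - y v) + (e' u - e' v) ⬝ᵥ (x u - x v) = 0) →
      ∑ a, Psi H x w a ⬝ᵥ e' a = 0 := by
    intro e' y h1 h2
    have h3 := key H p y w
    rw [Finset.sum_eq_zero fun a _ => h1 a] at h3
    rw [key H x e' w]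
    have h4 : ∀ a l, (if H.Adj a l then w a l * ((x a - x l) ⬝ᵥ (e' a - e' l)) else 0) =
        - (if H.Adj a l then w a l * ((p a - p l) ⬝ᵥ (y a - y l)) else 0) := by
      intro a l
      split_ifs with h
      · have := h2 a l h
        rw [dotProduct_comm (x a - x l)]
        have h5 : (e' a - e' l) ⬝ᵥ (x a - x l) = - ((p a - p l) ⬝ᵥ (y a - y l)) := by linarith
        rw [h5]
        ring
      · simp
    simp only [h4, Finset.sum_neg_distrib]
    rw [← h3, neg_zero]
  by_cases hc : ∑ a, Psi H x w a ⬝ᵥ Psi H p w a = 0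
  · refine ⟨fun a => if a = i then (2 : ℝ) • Psi H p w a else Psi H p w a, ?_, ?_⟩
    · intro z hz h
      refine hG z hz fun a => ?_
      have h1 := h a
      simp only at h1
      split_ifs at h1 with h2
      · rw [smul_dotProduct, smul_eq_mul] at h1
        linarith
      · exact h1
    · rintro ⟨y, hy1, hy2⟩
      have h1 := hob _ y (fun a => by
        have h1 := hy1 a
        simp only at h1
        split_ifs at h1 with h2
        · rw [smul_dotProduct, smul_eq_mul] at h1
          linarith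
        · exact h1) hy2
      have h2 : ∀ a, Psi H x w a ⬝ᵥ (if a = i then (2 : ℝ) • Psi H p w a else Psi H p w a) =
          Psi H x w a ⬝ᵥ Psi H p w a + if a = i then Psi H x w a ⬝ᵥ Psi H p w a else 0 := by
        intro a
        split_ifs
        · rw [dotProduct_smul, smul_eq_mul]; ring
        · simp
      rw [Finset.sum_congr rfl fun a _ => h2 a, Finset.sum_add_distrib, hc, zero_add] at h1
      simp only [Finset.sum_ite_eq', Finset.mem_univ, if_true] at h1
      rw [dotProduct_comm] at h1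
      exact hX h1
  · refine ⟨Psi H p w, hG, ?_⟩
    rintro ⟨y, hy1, hy2⟩
    exact hc (hob _ y hy1 hy2)

end Pool.Agent.J4H89.TP
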