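import Pool.Agent.J4H92.TP.Stm
import Pool.Agent.H283R2.DR.TaskC

/-! # Project TP (helper92), piece SQ (helper89): the square of a plane-rigid graph is rigid in space -/

set_option autoImplicit false

namespace Pool.Agent.J4H89.TP

open SimpleGraph Module Matrix Pool.Agent.H283R2.DR Pool.Agent.H283R2.DR.TA Pool.Agent.J4H92.CP
  Pool.Agent.J4H92.NC Pool.Agent.J4H92.TP

theorem good_comp {E F : Type*} [AddCommGroup E] [Module ℝ E] [AddCommGroup F] [Module ℝ F]
    (L : E →ₗ[ℝ] F) {P : F → Prop} (h : Good P) : Good (fun e => P (L e)) := by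
  intro p0 p1 h0
  refine (h (L p0) (L p1) h0).subset ?_
  intro s hs
  rw [Set.mem_ofPred_eq] at hs ⊢
  intro hc
  apply hs
  show P (L (p0 + s • (p1 - p0)))
  rw [map_add, map_smul, map_sub]
  exact hc

theorem rigidOn_good {W : Type} {d : ℕ} [Finite W] (G : SimpleGraph W) (U : Set W) :
    Good (fun p : W → Fin d → ℝ => RigidOn G U p) := by
  have h := good_comp (LinearMap.funLeft ℝ (Fin d → ℝ) (Subtype.val : U → W))
    (infRigid_good (d := d) (G.induce U))
  intro p0 p1 h0
  refine (h p0 p1 ((rigidOn_iff_induce G U p0).1 h0)).subset ?_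
  intro s hs
  rw [Set.mem_ofPred_eq] at hs ⊢
  intro hc
  exact hs ((rigidOn_iff_induce G U _).2 hc)

/-- the projection to the plane -/
noncomputable def pr : (Fin 3 → ℝ) →ₗ[ℝ] (Fin 2 → ℝ) where
  toFun x := ![x 0, x 1]
  map_add' x y := by
    funext i
    fin_cases i <;> simp
  map_smul' c x := by
    funext i
    fin_cases i <;> simp

theorem pr_zero (x : Fin 3 → ℝ) : pr x 0 = x 0 := rfl
theorem pr_one (x : Fin 3 → ℝ) : pr x 1 = x 1 := rfl

/-- the projection of a placement -/
noncomputable def prW (W : Type) : (W → Fin 3 → ℝ) →ₗ[ℝ] (W → Fin 2 → ℝ) where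
  toFun p v := pr (p v)
  map_add' p q := by
    funext v
    simp
  map_smul' c p := by
    funext v
    simp

theorem prW_apply {W : Type} (p : W → Fin 3 → ℝ) (v : W) : prW W p v = pr (p v) := rfl

/-- the cross product -/
def cr (a y : Fin 3 → ℝ) : Fin 3 → ℝ :=
  ![a 1 * y 2 - a 2 * y 1, a 2 * y 0 - a 0 * y 2, a 0 * y 1 - a 1 * y 0]

theorem skew3 {A : Matrix (Fin 3) (Fin 3) ℝ} (hA : Aᵀ = -A) (y : Fin 3 → ℝ) :
    A *ᵥ y = cr ![A 2 1, A 0 2, A 1 0] y := by
  have h : ∀ i j, A j i = - A i j := by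
    intro i j
    have := congrFun (congrFun hA i) j
    simpa using this
  have h00 : A 0 0 = 0 := by have := h 0 0; linarith
  have h11 : A 1 1 = 0 := by have := h 1 1; linarith
  have h22 : A 2 2 = 0 := by have := h 2 2; linarith
  have h01 := h 1 0
  have h20 := h 0 2
  have h12 := h 2 1
  funext i
  fin_cases i
  · simp [Matrix.mulVec, dotProduct, Fin.sum_univ_three, cr, h00, h01]
    ring
  · simp [Matrix.mulVec, dotProduct, Fin.sum_univ_three, cr, h11, h12]
    ring
  · simp [Matrix.mulVec, dotProduct, Fin.sum_univ_three, cr, h22, h20]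
    ring

theorem skew2 {A : Matrix (Fin 2) (Fin 2) ℝ} (hA : Aᵀ = -A) (y : Fin 2 → ℝ) :
    A *ᵥ y = ![- A 1 0 * y 1, A 1 0 * y 0] := by
  have h : ∀ i j, A j i = - A i j := by
    intro i j
    have := congrFun (congrFun hA i) j
    simpa using this
  have h00 : A 0 0 = 0 := by have := h 0 0; linarith
  have h11 : A 1 1 = 0 := by have := h 1 1; linarith
  have h01 := h 1 0
  funext i
  fin_cases i
  · simp [Matrix.mulVec, dotProduct, Fin.sum_univ_two, h00, h01]
  · simp [Matrix.mulVec, dotProduct, Fin.sum_univ_two, h11]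

/-- the form of the motions in the plane -/
theorem plane {W : Type} {H : SimpleGraph W} {P : W → Fin 2 → ℝ} (hP : InfRigid H P)
    (f g : W → ℝ) (h : ∀ u v, H.Adj u v →
      (P u 0 - P v 0) * (f u - f v) + (P u 1 - P v 1) * (g u - g v) = 0) :
    ∃ w c d : ℝ, ∀ v, f v = - w * P v 1 + c ∧ g v = w * P v 0 + d := by
  obtain ⟨A, b, hA, hb⟩ := hP (fun v => ![f v, g v]) (by
    intro u v huv
    have := h u v huv
    simpa [dotProduct, Fin.sum_univ_two] using this)
  refine ⟨A 1 0, b 0, b 1, fun v => ?_⟩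
  have h1 := hb v
  rw [skew2 hA] at h1
  have h2 := congrFun h1 0
  have h3 := congrFun h1 1
  simp at h2 h3
  exact ⟨by rw [h2]; ring, by rw [h3]⟩

/-- locally constant functions are constant -/
theorem const {W : Type} {H : SimpleGraph W} {P : W → Fin 2 → ℝ} (hP : InfRigid H P)
    (hC : ∀ u v, u ≠ v → P u 0 ≠ P v 0) (f : W → ℝ) (h : ∀ u v, H.Adj u v → f u = f v)
    (u v : W) : f u = f v := by
  by_cases huv : u = v
  · rw [huv]
  obtain ⟨w, c, d, hw⟩ := plane hP f (fun _ => 0) (by
    intro u v huv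
    rw [h u v huv]
    ring)
  have h1 := (hw u).2
  have h2 := (hw v).2
  have h3 : w * (P u 0 - P v 0) = 0 := by linarith
  have h4 : w = 0 := by
    rcases mul_eq_zero.1 h3 with h | h
    · exact h
    · exact absurd (sub_eq_zero.1 h) (hC u v huv)
  have h5 := (hw u).1
  have h6 := (hw v).1
  rw [h4] at h5 h6
  linarith

/-- edges of rigid plane graphs are not bridges -/
theorem bridge {W : Type} {H : SimpleGraph W} {P : W → Fin 2 → ℝ} (hP : InfRigid H P)
    (hC : ∀ u v, u ≠ v → P u 0 ≠ P v 0) {u v : W} (huv : u ≠ v) (b : W → ℝ)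
    (h : ∀ i j, H.Adj i j → ¬ (i = u ∧ j = v) → ¬ (i = v ∧ j = u) → b i = b j) :
    ∀ i, i ≠ u → b i = b v := by
  obtain ⟨w, c, d, hw⟩ := plane hP (fun i => - (b i - b u) * (P i 1 - P u 1))
    (fun i => (b i - b u) * (P i 0 - P u 0)) (by
    intro i j hij
    by_cases h1 : i = u ∧ j = v
    · obtain ⟨rfl, rfl⟩ := h1
      ring
    · by_cases h2 : i = v ∧ j = u
      · obtain ⟨rfl, rfl⟩ := h2
        ring
      · rw [h i j hij h1 h2]
        ring)
  have hu1 := (hw u).1
  have hu2 := (hw u).2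
  simp only [sub_self, mul_zero] at hu1 hu2
  have key : ∀ i, i ≠ u → b i - b u = w := by
    intro i hi
    have h1 := (hw i).2
    have h3 : (b i - b u - w) * (P i 0 - P u 0) = 0 := by
      linarith
    rcases mul_eq_zero.1 h3 with h | h
    · linarith
    · exact absurd (sub_eq_zero.1 h) (hC i u hi)
  intro i hi
  have h1 := key i hi
  have h2 := key v huv.symm
  linarith

/-- the area form is not a coboundary -/
def ND {W : Type} (H : SimpleGraph W) (p : W → Fin 3 → ℝ) : Prop :=
  ¬ ∃ b : W → ℝ, ∀ u v, H.Adj u v → p v 0 * p u 1 - p v 1 * p u 0 = b u - b v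

/-- coboundaries -/
def Cob {W : Type} (H : SimpleGraph W) : Submodule ℝ (W → W → ℝ) where
  carrier := {g | ∃ b : W → ℝ, ∀ u v, H.Adj u v → g u v = b u - b v}
  zero_mem' := ⟨0, fun u v _ => by simp⟩
  add_mem' := by
    rintro g g' ⟨b, hb⟩ ⟨b', hb'⟩
    refine ⟨b + b', fun u v huv => ?_⟩
    simp only [Pi.add_apply]
    rw [hb u v huv, hb' u v huv]
    ring
  smul_mem' := by
    rintro c g ⟨b, hb⟩
    refine ⟨c • b, fun u v huv => ?_⟩
    simp only [Pi.smul_apply, smul_eq_mul]
    rw [hb u v huv]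
    ring

theorem nd_good {W : Type} (H : SimpleGraph W) : Good (ND H) := by
  intro p0 p1 h0
  set r := p1 - p0 with hr
  set g0 : W → W → ℝ := fun u v => p0 v 0 * p0 u 1 - p0 v 1 * p0 u 0 with hg0
  set g1 : W → W → ℝ := fun u v => p0 v 0 * r u 1 + r v 0 * p0 u 1 - p0 v 1 * r u 0 -
    r v 1 * p0 u 0 with hg1
  set g2 : W → W → ℝ := fun u v => r v 0 * r u 1 - r v 1 * r u 0 with hg2
  have h1 : g0 ∉ Cob H := by
    rintro ⟨b, hb⟩
    exact h0 ⟨b, hb⟩
  obtain ⟨φ, hφ0, hφ⟩ := Submodule.exists_dual_map_eq_bot_of_notMem h1 inferInstance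
  have hφ1 : ∀ g ∈ Cob H, φ g = 0 := by
    intro g hg
    have : φ g ∈ (Cob H).map φ := ⟨g, hg, rfl⟩
    rw [hφ] at this
    simpa using this
  set P : Polynomial ℝ := Polynomial.C (φ g0) + Polynomial.C (φ g1) * Polynomial.X +
    Polynomial.C (φ g2) * Polynomial.X ^ 2 with hP
  have hP0 : P ≠ 0 := by
    intro h
    have h2 := congrArg (Polynomial.eval 0) h
    simp [hP] at h2
    exact hφ0 h2
  refine (Polynomial.finite_setOfPred_isRoot hP0).subset ?_
  intro s hs
  rw [Set.mem_ofPred_eq] at hs ⊢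
  simp only [ND, not_not] at hs
  obtain ⟨b, hb⟩ := hs
  have h3 : g0 + s • g1 + s ^ 2 • g2 ∈ Cob H := by
    refine ⟨b, fun u v huv => ?_⟩
    rw [← hb u v huv]
    simp only [Pi.add_apply, Pi.smul_apply, smul_eq_mul, hg0, hg1, hg2]
    ring
  have h4 := hφ1 _ h3
  rw [map_add, map_add, map_smul, map_smul, smul_eq_mul, smul_eq_mul] at h4
  simp only [hP, Polynomial.IsRoot, Polynomial.eval_add, Polynomial.eval_mul, Polynomial.eval_C,
    Polynomial.eval_X, Polynomial.eval_pow]
  linarith


/-- the main step -/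
theorem main {W : Type} {H : SimpleGraph W} {p : W → Fin 3 → ℝ}
    (hA : ∀ i, RigidOn (Sq H) {v | v = i ∨ H.Adj i v} p)
    (hB : InfRigid H (prW W p)) (hC : ∀ u v, u ≠ v → p u 0 ≠ p v 0) (hD : ND H p)
    {m : W → Fin 3 → ℝ} (hm : ∀ u v, (Sq H).Adj u v → (p u - p v) ⬝ᵥ (m u - m v) = 0) :
    ∃ a b : Fin 3 → ℝ, ∀ v, m v = cr a (p v) + b := by
  have h1 : ∀ i, ∃ a b : Fin 3 → ℝ, ∀ v, (v = i ∨ H.Adj i v) → m v = cr a (p v) + b := by
    intro i
    obtain ⟨A, b, hA1, hb⟩ := hA i m (fun u _ v _ huv => hm u v huv)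
    refine ⟨![A 2 1, A 0 2, A 1 0], b, fun v hv => ?_⟩
    rw [hb v hv, skew3 hA1]
  choose a b hab using h1
  -- the relations at an edge
  have hE : ∀ i j, H.Adj i j → cr (a i) (p i) + b i = cr (a j) (p i) + b j := by
    intro i j hij
    rw [← hab i i (Or.inl rfl), ← hab j i (Or.inr hij.symm)]
  have hE' : ∀ i j, H.Adj i j → ∀ k, cr (a i) (p i) k + b i k = cr (a j) (p i) k + b j k := by
    intro i j hij k
    have := congrFun (hE i j hij) k
    simpa using this
  have c0 : ∀ x y : Fin 3 → ℝ, cr x y 0 = x 1 * y 2 - x 2 * y 1 := fun _ _ => rfl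
  have c1 : ∀ x y : Fin 3 → ℝ, cr x y 1 = x 2 * y 0 - x 0 * y 2 := fun _ _ => rfl
  have c2 : ∀ x y : Fin 3 → ℝ, cr x y 2 = x 0 * y 1 - x 1 * y 0 := fun _ _ => rfl
  -- the plane motion
  obtain ⟨w, c, d, hw⟩ := plane hB (fun i => - a i 1) (fun i => a i 0) (by
    intro i j hij
    have e1 := hE' i j hij 2
    have e2 := hE' j i hij.symm 2
    rw [c2, c2] at e1 e2
    simp only [prW_apply, pr_zero, pr_one]
    linarith)
  simp only [prW_apply, pr_zero, pr_one] at hw
  have ha1 : ∀ i, a i 1 = w * p i 1 - c := fun i => by have := (hw i).1; linarith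
  have ha0 : ∀ i, a i 0 = w * p i 0 + d := fun i => (hw i).2
  have ha2 : ∀ i j, H.Adj i j → a i 2 - a j 2 = w * (p i 2 - p j 2) := by
    intro i j hij
    have e1 := hE' i j hij 1
    have e2 := hE' j i hij.symm 1
    rw [c1, c1, ha0, ha0] at e1 e2
    have hne : p i 0 - p j 0 ≠ 0 := sub_ne_zero.2 (hC i j hij.ne)
    have h3 : (p i 0 - p j 0) * (a i 2 - a j 2 - w * (p i 2 - p j 2)) = 0 := by linarith
    rcases mul_eq_zero.1 h3 with h | h
    · exact absurd h hne
    · linarith
  have hb2 : ∀ i j, H.Adj i j → b i 2 - b j 2 = w * (p j 0 * p i 1 - p j 1 * p i 0) := by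
    intro i j hij
    have e1 := hE' i j hij 2
    rw [c2, c2, ha0, ha0, ha1, ha1] at e1
    linarith
  have hw0 : w = 0 := by
    by_contra hw0
    refine hD ⟨fun i => b i 2 / w, fun u v huv => ?_⟩
    rw [← sub_div, hb2 u v huv]
    field_simp
  subst hw0
  have hP : ∀ u v, u ≠ v → prW W p u 0 ≠ prW W p v 0 := fun u v huv => hC u v huv
  have hak : ∀ k i j, a i k = a j k := by
    intro k i j
    fin_cases k
    · show a i 0 = a j 0
      rw [ha0, ha0]; ring
    · show a i 1 = a j 1
      rw [ha1, ha1]; ring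
    · refine const hB hP (fun i => a i 2) ?_ i j
      intro u v huv
      have := ha2 u v huv
      linarith
  have hae : ∀ i j, a i = a j := fun i j => funext fun k => hak k i j
  have hbk : ∀ k i j, b i k = b j k := by
    intro k i j
    refine const hB hP (fun i => b i k) ?_ i j
    intro u v huv
    have e1 := hE' u v huv k
    rw [hae u v] at e1
    linarith
  rcases isEmpty_or_nonempty W with hW | ⟨⟨i0⟩⟩
  · exact ⟨0, 0, fun v => (hW.false v).elim⟩
  · refine ⟨a i0, b i0, fun v => ?_⟩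
    rw [hab v v (Or.inl rfl), hae v i0]
    congr 1
    exact funext fun k => hbk k v i0

theorem cr_add (a a' y : Fin 3 → ℝ) : cr (a + a') y = cr a y + cr a' y := by
  funext i
  fin_cases i <;> simp [cr] <;> ring

theorem cr_smul (c : ℝ) (a y : Fin 3 → ℝ) : cr (c • a) y = c • cr a y := by
  funext i
  fin_cases i <;> simp [cr] <;> ring

/-- the trivial motions -/
noncomputable def tri {W : Type} (p : W → Fin 3 → ℝ) :
    ((Fin 3 → ℝ) × (Fin 3 → ℝ)) →ₗ[ℝ] (W → Fin 3 → ℝ) where
  toFun x v := cr x.1 (p v) + x.2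
  map_add' x y := by
    funext v
    simp only [Prod.fst_add, Prod.snd_add, Pi.add_apply, cr_add]
    abel
  map_smul' c x := by
    funext v
    simp only [Prod.smul_fst, Prod.smul_snd, Pi.smul_apply, cr_smul, RingHom.id_apply, smul_add]

theorem fin_le {W : Type} [Fintype W] {H : SimpleGraph W} {p : W → Fin 3 → ℝ}
    (hA : ∀ i, RigidOn (Sq H) {v | v = i ∨ H.Adj i v} p)
    (hB : InfRigid H (prW W p)) (hC : ∀ u v, u ≠ v → p u 0 ≠ p v 0) (hD : ND H p) :
    finrank ℝ (Sol (Sq H) (df p) (fun _ (i : Fin 0) => i.elim0)) ≤ 6 := by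
  have h1 : Sol (Sq H) (df p) (fun _ (i : Fin 0) => i.elim0) ≤ LinearMap.range (tri p) := by
    intro m hm
    rw [mem_sol] at hm
    obtain ⟨a, b, hab⟩ := main hA hB hC hD (m := m) (fun u v huv => hm.1 u v huv)
    exact ⟨(a, b), funext fun v => (hab v).symm⟩
  refine (Submodule.finrank_mono h1).trans ((LinearMap.finrank_range_le _).trans ?_)
  rw [Module.finrank_prod, Module.finrank_fin_fun]

/-- **SQ** -/
theorem t_SQ : S_SQ := by
  intro W _ H hcard hH
  classical
  obtain ⟨P0, hP0⟩ := hH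
  -- first placement
  have hBgood : Good (fun p : W → Fin 3 → ℝ => InfRigid H (prW W p)) :=
    good_comp (prW W) (infRigid_good H)
  have hBex : ∃ p : W → Fin 3 → ℝ, InfRigid H (prW W p) := by
    refine ⟨fun v => ![P0 v 0, P0 v 1, 0], ?_⟩
    have : prW W (fun v => ![P0 v 0, P0 v 1, 0]) = P0 := by
      funext v i
      fin_cases i <;> simp [prW, pr]
    rw [this]
    exact hP0
  let dif : W × W → (W → Fin 3 → ℝ) →ₗ[ℝ] ℝ := fun e =>
    { toFun := fun p => p e.1 0 - p e.2 0
      map_add' := fun p q => by simp only [Pi.add_apply]; ring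
      map_smul' := fun c p => by
        simp only [Pi.smul_apply, smul_eq_mul, RingHom.id_apply]; ring }
  have hCgood : ∀ e : W × W, Good (fun p : W → Fin 3 → ℝ => e.1 ≠ e.2 → dif e p ≠ 0) := by
    intro e
    by_cases he : e.1 = e.2
    · intro p0 p1 _
      refine Set.finite_empty.subset ?_
      intro s hs
      exact hs fun h => absurd he h
    · have h := good_ne (dif e)
      intro p0 p1 h0
      refine (h p0 p1 (h0 he)).subset ?_
      intro s hs
      rw [Set.mem_ofPred_eq] at hs ⊢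
      intro hc
      exact hs fun _ => hc
  have hCex : ∀ e : W × W, ∃ p : W → Fin 3 → ℝ, e.1 ≠ e.2 → dif e p ≠ 0 := by
    intro e
    refine ⟨fun v => if v = e.1 then ![1, 0, 0] else 0, fun he => ?_⟩
    show (if e.1 = e.1 then (![1, 0, 0] : Fin 3 → ℝ) else 0) 0 -
      (if e.2 = e.1 then (![1, 0, 0] : Fin 3 → ℝ) else 0) 0 ≠ 0
    rw [if_pos rfl, if_neg (Ne.symm he)]
    simp
  have hCof : ∀ p : W → Fin 3 → ℝ, (∀ e : W × W, e.1 ≠ e.2 → dif e p ≠ 0) →
      ∀ u v, u ≠ v → p u 0 ≠ p v 0 := by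
    intro p hp u v huv h
    exact hp (u, v) huv (sub_eq_zero.2 h)
  obtain ⟨p1, hp1⟩ := good_family (E := W → Fin 3 → ℝ) (ι := Option (W × W))
    (fun i p => match i with
      | none => InfRigid H (prW W p)
      | some e => e.1 ≠ e.2 → dif e p ≠ 0)
    (fun i => match i with
      | none => hBgood
      | some e => hCgood e)
    (fun i => match i with
      | none => hBex
      | some e => hCex e)
  have hp1B : InfRigid H (prW W p1) := hp1 none
  have hp1C := hCof p1 (fun e => hp1 (some e))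
  have hp1P : ∀ u v, u ≠ v → prW W p1 u 0 ≠ prW W p1 v 0 := fun u v huv => hp1C u v huv
  -- an edge
  obtain ⟨u0, v0, w0, huv0, huw0, hvw0⟩ := Fintype.two_lt_card_iff.1 (by omega : 2 < Fintype.card W)
  have hedge : ∃ u v, H.Adj u v := by
    by_contra hcon
    push Not at hcon
    have := const hp1B hp1P (fun i => if i = u0 then 1 else 0)
      (fun u v huv => absurd huv (hcon u v)) u0 v0
    simp [huv0.symm] at this
  obtain ⟨u, v, huv⟩ := hedge
  obtain ⟨x, hxu, hxv⟩ : ∃ x, x ≠ u ∧ x ≠ v := by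
    by_contra hcon
    push Not at hcon
    have h1 := hcon u0
    have h2 := hcon v0
    have h3 := hcon w0
    by_cases e1 : u0 = u
    · have e2 := h2 (fun h => huv0 (e1.trans h.symm))
      have e3 := h3 (fun h => huw0 (e1.trans h.symm))
      exact hvw0 (e2.trans e3.symm)
    · have e0 := h1 e1
      by_cases e2 : v0 = u
      · have e3 := h3 (fun h => hvw0 (e2.trans h.symm))
        exact huw0 (e0.trans e3.symm)
      · exact huv0 (e0.trans (h2 e2).symm)
  -- condition D
  have hDex : ∃ p : W → Fin 3 → ℝ, ND H p := by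
    refine ⟨fun i => if i = v then ![1, 0, 0] else if i = u then ![0, 1, 0] else 0, ?_⟩
    rintro ⟨b, hb⟩
    have hne : u ≠ v := huv.ne
    have h1 : ∀ i j, H.Adj i j → ¬ (i = u ∧ j = v) → ¬ (i = v ∧ j = u) → b i = b j := by
      intro i j hij n1 n2
      have h2 := hb i j hij
      by_cases ei : i = v
      · have ej : j ≠ u := fun h => n2 ⟨ei, h⟩
        have ej' : j ≠ v := fun h => hij.ne (ei.trans h.symm)
        simp [ei, ej, ej'] at h2
        rw [ei]
        linarith
      · by_cases ei2 : i = u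
        · have ej : j ≠ v := fun h => n1 ⟨ei2, h⟩
          have ej' : j ≠ u := fun h => hij.ne (ei2.trans h.symm)
          simp [ej, ej'] at h2
          linarith
        · simp [ei, ei2] at h2
          linarith
    have h2 := bridge hp1B hp1P hne b h1
    have h3 := bridge hp1B hp1P hne.symm b (fun i j hij n1 n2 => h1 i j hij n2 n1)
    have h4 := h2 x hxu
    have h5 := h3 x hxv
    have h6 := hb u v huv
    simp [hne] at h6
    linarith
  -- cliques
  have hAex : ∀ i, ∃ p : W → Fin 3 → ℝ, RigidOn (Sq H) {v | v = i ∨ H.Adj i v} p := by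
    intro i
    obtain ⟨p, hp⟩ := exists_gen W 3
    refine ⟨p, ?_⟩
    have h1 := rigid_complete hp (Sq H) (Finset.univ.filter fun v => v = i ∨ H.Adj i v) (by
      intro a ha b hb hab
      rw [Finset.mem_filter] at ha hb
      refine ⟨hab, ?_⟩
      rcases ha.2 with rfl | ha
      · rcases hb.2 with rfl | hb
        · exact absurd rfl hab
        · exact Or.inl hb
      · rcases hb.2 with rfl | hb
        · exact Or.inl ha.symm
        · exact Or.inr ⟨i, ha, hb⟩)
    have e : (↑(Finset.univ.filter fun v => v = i ∨ H.Adj i v) : Set W) =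
        {v | v = i ∨ H.Adj i v} := by
      ext v
      simp
    rw [e] at h1
    exact h1
  obtain ⟨p, hp⟩ := good_family (E := W → Fin 3 → ℝ) (ι := Option (W × W) ⊕ Option W)
    (fun i p => match i with
      | Sum.inl none => InfRigid H (prW W p)
      | Sum.inl (some e) => e.1 ≠ e.2 → dif e p ≠ 0
      | Sum.inr none => ND H p
      | Sum.inr (some i) => RigidOn (Sq H) {v | v = i ∨ H.Adj i v} p)
    (fun i => match i with
      | Sum.inl none => hBgood
      | Sum.inl (some e) => hCgood e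
      | Sum.inr none => nd_good H
      | Sum.inr (some i) => rigidOn_good _ _)
    (fun i => match i with
      | Sum.inl none => hBex
      | Sum.inl (some e) => hCex e
      | Sum.inr none => hDex
      | Sum.inr (some i) => hAex i)
  exact ⟨p, _, fin_le (fun i => hp (Sum.inr (some i))) (hp (Sum.inl none))
    (hCof p fun e => hp (Sum.inl (some e))) (hp (Sum.inr none))⟩

end Pool.Agent.J4H89.TP
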